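import Pool.Agent.H24.RD.Targets

/-!
# Heights in Kummer towers, module KG: the Kummer group is large
-/

set_option autoImplicit false

namespace Pool.Agent.H86.RD

open NumberField Height Finset
open Pool.Agent.H24.RD

theorem pow_val_nat {M : Type} [Field M] {q : ℕ} [NeZero q] {ζ : M} (hζ : ζ ^ q = 1) (k : ℕ) :
    ζ ^ ((k : ZMod q).val) = ζ ^ k := by
  rw [ZMod.val_natCast]
  conv_rhs => rw [← Nat.div_add_mod k q, pow_add, pow_mul, hζ, one_pow, one_mul]

theorem pow_val_add {M : Type} [Field M] {q : ℕ} [NeZero q] {ζ : M} (hζ : ζ ^ q = 1)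
    (a b : ZMod q) : ζ ^ ((a + b).val) = ζ ^ a.val * ζ ^ b.val := by
  rw [ZMod.val_add, ← pow_add]
  conv_rhs => rw [← Nat.div_add_mod (a.val + b.val) q, pow_add, pow_mul, hζ, one_pow, one_mul]

theorem kg_core (F M Ω : Type) [Field F] [Field M] [Field Ω] [Algebra F M] [Algebra F Ω]
    [FiniteDimensional F M] [IsGalois F M] (ι : M →ₐ[F] Ω) (p : ℕ) (hp : p.Prime) (r : ℕ)
    (γ : Fin r → F) (hγ : ∀ i, γ i ≠ 0) (c n m N' K' : ℕ) (hmn : m ≤ n) (hN : ¬ p ∣ N')
    (hK : K' ∣ N')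
    (hKT : ∀ (x : Fin r → ℤ) (y : Ω),
      y ∈ IntermediateField.adjoin F {z : Ω | z ^ (p ^ n * N') = 1} →
      y ^ (p ^ m) = ∏ i, (algebraMap F Ω (γ i)) ^ x i →
      ∀ i, ((p ^ m : ℕ) : ℤ) ∣ (p ^ c : ℕ) * x i)
    (hSEP : T_SEP) (ζ : M) (θ : Fin r → M) (hζ : IsPrimitiveRoot ζ (p ^ m))
    (hθ : ∀ i, θ i ^ (p ^ m) = algebraMap F M (γ i)) (b : Fin r → ℕ) :
    ∃ g ∈ AA F M γ (p ^ n * N') K', ∀ i, g (θ i) = ζ ^ (p ^ c * b i) * θ i := by
  classical
  have hq0 : 0 < p ^ m := pow_pos hp.pos m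
  have : NeZero (p ^ m) := ⟨hq0.ne'⟩
  have hζq : ζ ^ (p ^ m) = 1 := hζ.pow_eq_one
  have hζ0 : ζ ≠ 0 := hζ.ne_zero hq0.ne'
  have hθ0 : ∀ i, θ i ≠ 0 := by
    intro i h
    have h1 := hθ i
    rw [h, zero_pow hq0.ne'] at h1
    exact hγ i ((map_eq_zero _).1 h1.symm)
  -- the field generated by the roots of unity and its group
  set L₁ : IntermediateField F M :=
    IntermediateField.adjoin F {z : M | z ^ (p ^ n * N') = 1} with hL₁
  have hmemH : ∀ g : M ≃ₐ[F] M, g ∈ L₁.fixingSubgroup ↔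
      ∀ z : M, z ^ (p ^ n * N') = 1 → g z = z := by
    intro g
    rw [IntermediateField.mem_fixingSubgroup_iff]
    constructor
    · intro h z hz
      exact h z (IntermediateField.subset_adjoin F _ hz)
    · intro h
      have h2 : L₁ ≤ IntermediateField.fixedField (Subgroup.zpowers g) := by
        rw [hL₁, IntermediateField.adjoin_le_iff]
        intro z hz
        rw [SetLike.mem_coe, IntermediateField.mem_fixedField_iff]
        intro f hf
        have h3 : Subgroup.zpowers g ≤ MulAction.stabilizer (M ≃ₐ[F] M) z := by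
          rw [Subgroup.zpowers_le]
          exact h z hz
        exact h3 hf
      intro z hz
      have h3 := h2 hz
      rw [IntermediateField.mem_fixedField_iff] at h3
      exact h3 g (Subgroup.mem_zpowers g)
  have hgζ : ∀ g ∈ L₁.fixingSubgroup, g ζ = ζ := by
    intro g hg
    refine (hmemH g).1 hg ζ ?_
    obtain ⟨k, hk⟩ := Nat.exists_eq_add_of_le hmn
    rw [hk, pow_add, mul_assoc, pow_mul, hζq, one_pow]
  -- the action on the roots
  have hact : ∀ g : M ≃ₐ[F] M, ∀ i, ∃ k : ZMod (p ^ m), g (θ i) = ζ ^ k.val * θ i := by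
    intro g i
    have h1 : (g (θ i) / θ i) ^ (p ^ m) = 1 := by
      rw [div_pow, ← map_pow, hθ, AlgEquiv.commutes, ← hθ, div_self (pow_ne_zero _ (hθ0 i))]
    obtain ⟨k, -, hk2⟩ := hζ.eq_pow_of_pow_eq_one h1
    refine ⟨(k : ZMod (p ^ m)), ?_⟩
    rw [pow_val_nat hζq, hk2, div_mul_cancel₀ _ (hθ0 i)]
  -- the group of the exponents
  let B : AddSubgroup (Fin r → ZMod (p ^ m)) :=
    { carrier := {b | ∃ g ∈ L₁.fixingSubgroup, ∀ i, g (θ i) = ζ ^ (b i).val * θ i}
      zero_mem' := ⟨1, one_mem _, fun i => by simp⟩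
      add_mem' := by
        rintro b₁ b₂ ⟨g₁, hg₁, h₁⟩ ⟨g₂, hg₂, h₂⟩
        refine ⟨g₁ * g₂, mul_mem hg₁ hg₂, fun i => ?_⟩
        rw [AlgEquiv.mul_apply, h₂, map_mul, map_pow, hgζ g₁ hg₁, h₁, Pi.add_apply,
          pow_val_add hζq]
        ring
      neg_mem' := by
        rintro b₁ ⟨g₁, hg₁, h₁⟩
        refine ⟨g₁⁻¹, inv_mem hg₁, fun i => ?_⟩
        have h2 : g₁ (ζ ^ ((-b₁) i).val * θ i) = θ i := by
          rw [map_mul, map_pow, hgζ g₁ hg₁, h₁, ← mul_assoc, ← pow_val_add hζq, Pi.neg_apply,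
            neg_add_cancel, ZMod.val_zero, pow_zero, one_mul]
        calc g₁⁻¹ (θ i) = g₁⁻¹ (g₁ (ζ ^ ((-b₁) i).val * θ i)) := by rw [h2]
          _ = ζ ^ ((-b₁) i).val * θ i := by
            rw [← AlgEquiv.mul_apply, inv_mul_cancel]
            rfl }
  have hw : (fun i => ((p ^ c * b i : ℕ) : ZMod (p ^ m))) ∈ B := by
    refine hSEP (p ^ m) r hq0 B _ ?_
    intro x hx
    set y : M := ∏ i, θ i ^ (x i).val with hy
    -- `y` is fixed
    have hyfix : ∀ g ∈ L₁.fixingSubgroup, g y = y := by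
      intro g hg
      choose k hk using hact g
      have hkB : k ∈ B := ⟨g, hg, hk⟩
      have hsum := hx k hkB
      have h1 : g y = (∏ i, ζ ^ ((k i).val * (x i).val)) * y := by
        rw [hy, map_prod, ← prod_mul_distrib]
        refine prod_congr rfl fun i _ => ?_
        rw [map_pow, hk, mul_pow, ← pow_mul]
      have h2 : (∏ i, ζ ^ ((k i).val * (x i).val)) = 1 := by
        rw [prod_pow_eq_pow_sum, ← pow_val_nat hζq]
        have h3 : ((∑ i, (k i).val * (x i).val : ℕ) : ZMod (p ^ m)) = 0 := by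
          rw [← hsum]
          push_cast
          refine sum_congr rfl fun i _ => ?_
          rw [ZMod.natCast_zmod_val, ZMod.natCast_zmod_val, mul_comm]
        rw [h3, ZMod.val_zero, pow_zero]
      rw [h1, h2, one_mul]
    have hyL : y ∈ L₁ := by
      rw [← IsGalois.fixedField_fixingSubgroup L₁, IntermediateField.mem_fixedField_iff]
      exact hyfix
    have hιy : ι y ∈ IntermediateField.adjoin F {z : Ω | z ^ (p ^ n * N') = 1} := by
      have h1 : ι y ∈ L₁.map ι := by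
        rw [IntermediateField.mem_map]
        exact ⟨y, hyL, rfl⟩
      rw [hL₁, IntermediateField.adjoin_map] at h1
      refine IntermediateField.adjoin.mono F _ _ ?_ h1
      rintro _ ⟨z, hz, rfl⟩
      show (ι z) ^ (p ^ n * N') = 1
      rw [← map_pow, hz, map_one]
    have hpow : (ι y) ^ (p ^ m) = ∏ i, (algebraMap F Ω (γ i)) ^ (((x i).val : ℕ) : ℤ) := by
      rw [← map_pow, hy, ← prod_pow, map_prod]
      refine prod_congr rfl fun i _ => ?_
      rw [zpow_natCast, ← pow_mul, mul_comm, pow_mul, hθ, map_pow, AlgHom.commutes]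
    have hdiv := hKT (fun i => (((x i).val : ℕ) : ℤ)) (ι y) hιy hpow
    refine sum_eq_zero fun i _ => ?_
    have h4 : ((p ^ c * (x i).val : ℕ) : ZMod (p ^ m)) = 0 := by
      rw [ZMod.natCast_eq_zero_iff]
      have h5 := hdiv i
      have h6 : ((p ^ c : ℕ) : ℤ) * (((x i).val : ℕ) : ℤ) = ((p ^ c * (x i).val : ℕ) : ℤ) := by
        push_cast; ring
      rw [h6] at h5
      exact_mod_cast h5
    have h7 : (x i) = (((x i).val : ℕ) : ZMod (p ^ m)) := (ZMod.natCast_zmod_val _).symm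
    calc x i * ((p ^ c * b i : ℕ) : ZMod (p ^ m))
        = ((p ^ c * (x i).val : ℕ) : ZMod (p ^ m)) * (b i : ZMod (p ^ m)) := by
          conv_lhs => rw [h7]
          push_cast
          ring
      _ = 0 := by rw [h4, zero_mul]
  obtain ⟨g, hg, hgθ⟩ := hw
  -- a power of `g`
  have hcop : Nat.Coprime (p ^ m) K' := by
    refine Nat.Coprime.pow_left m ?_
    rw [Nat.Prime.coprime_iff_not_dvd hp]
    exact fun h => hN (dvd_trans h hK)
  obtain ⟨k, hk1, hk2⟩ := Nat.chineseRemainder hcop 1 0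
  have hN0 : N' ≠ 0 := by
    rintro rfl
    exact hN (dvd_zero p)
  have hK0 : K' ≠ 0 := by
    rintro rfl
    exact hN0 (Nat.eq_zero_of_zero_dvd hK)
  have hfix : ∀ z : M, z ^ (p ^ n * N') = 1 → g z = z := (hmemH g).1 hg
  have hpowfix : ∀ (z : M) (j : ℕ), g z = z → (g ^ j) z = z := by
    intro z j hz
    induction j with
    | zero => rfl
    | succ j ih => rw [pow_succ, AlgEquiv.mul_apply, hz, ih]
  have hpowmul : ∀ (z ρ : M) (j : ℕ), g ρ = ρ → g z = ρ * z → (g ^ j) z = ρ ^ j * z := by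
    intro z ρ j hρ hz
    induction j with
    | zero => simp
    | succ j ih =>
      rw [pow_succ, AlgEquiv.mul_apply, hz, map_mul, hpowfix ρ j hρ, ih, pow_succ]
      ring
  refine ⟨g ^ k, ?_, ?_⟩
  · rintro y (hy | ⟨i, hy⟩)
    · exact hpowfix y k (hfix y hy)
    · have hy0 : y ≠ 0 := by
        rintro rfl
        rw [zero_pow hK0] at hy
        exact hγ i ((map_eq_zero _).1 hy.symm)
      have hρ : (g y / y) ^ K' = 1 := by
        rw [div_pow, ← map_pow, hy, AlgEquiv.commutes, ← hy, div_self (pow_ne_zero _ hy0)]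
      have hρN : (g y / y) ^ (p ^ n * N') = 1 := by
        obtain ⟨d, hd⟩ := hK
        rw [hd, mul_comm (p ^ n), mul_assoc, pow_mul, hρ, one_pow]
      have h1 := hpowmul y (g y / y) k (hfix _ hρN) (by rw [div_mul_cancel₀ _ hy0])
      rw [h1]
      obtain ⟨d, hd⟩ := (Nat.modEq_zero_iff_dvd.1 hk2)
      rw [hd, pow_mul, hρ, one_pow, one_mul]
  · intro i
    have hgi : g (θ i) = ζ ^ (p ^ c * b i) * θ i := by
      rw [hgθ i]
      rw [pow_val_nat hζq]
    have hgζ' : g (ζ ^ (p ^ c * b i)) = ζ ^ (p ^ c * b i) := by rw [map_pow, hgζ g hg]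
    have h1 := hpowmul (θ i) (ζ ^ (p ^ c * b i)) k hgζ' hgi
    rw [h1]
    congr 1
    have h2 : (ζ ^ (p ^ c * b i)) ^ k = (ζ ^ k) ^ (p ^ c * b i) := by
      rw [← pow_mul, ← pow_mul, mul_comm]
    have h3 : ζ ^ k = ζ := by
      have h4 : k % (p ^ m) = 1 % (p ^ m) := hk1
      calc ζ ^ k = ζ ^ (k % (p ^ m)) := by
            conv_lhs => rw [← Nat.div_add_mod k (p ^ m), pow_add, pow_mul, hζq, one_pow, one_mul]
        _ = ζ ^ (1 % (p ^ m)) := by rw [h4]
        _ = ζ ^ 1 := by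
            conv_rhs => rw [← Nat.div_add_mod 1 (p ^ m), pow_add, pow_mul, hζq, one_pow, one_mul]
        _ = ζ := pow_one ζ
    rw [h2, h3]

theorem pf_KG : T_LVB → T_KT → T_SEP → T_KG := by
  intro hLVB hKT hSEP F Ω _ _ _ _ _ _ p hp r γ hγ
  obtain ⟨c, hc⟩ := hKT F Ω p hp r γ hγ
  refine ⟨c, ?_⟩
  intro n m N' K' hmn hN hK ζ θ hζ hθ b
  have hN0 : 0 < N' := Nat.pos_of_ne_zero (by
    rintro rfl
    exact hN (dvd_zero p))
  have hK0 : 0 < K' := Nat.pos_of_dvd_of_pos hK hN0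
  obtain ⟨h1, h2, -⟩ := hLVB F Ω r γ hγ.1 (p ^ n * N') (p ^ m * K')
    (Nat.mul_pos (pow_pos hp.pos n) hN0) (Nat.mul_pos (pow_pos hp.pos m) hK0)
  exact kg_core F (Lv F Ω γ (p ^ n * N') (p ^ m * K')) Ω
    (Lv F Ω γ (p ^ n * N') (p ^ m * K')).val p hp r γ hγ.1 c n m N' K' hmn hN hK
    (fun x y => hc n m N' hmn hN x y) hSEP ζ θ hζ hθ b

end Pool.Agent.H86.RD
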